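import Pool.Agent.Q143.CY.Nilp

/-!
# Amalgamated products over infinite cyclic subgroups
-/

set_option autoImplicit false
set_option linter.unusedSectionVars false
set_option linter.style.haveILetI false

namespace Pool.Agent.Q143.CY

open Monoid Pool.Agent.Y462.SS Pool.Agent.Q152.WP Pool.Agent.Q105.FJ Pool.Agent.Q143.EI

variable {C : ∀ (G : Type) [Group G], Prop}

/-- the amalgamated product of the groups `A i` along the elements `c i` -/
abbrev Am {ι : Type} (A : ι → Type) [∀ i, Group (A i)] (c : ∀ i, A i) : Type :=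
  PushoutI (fun i => zpowersHom (A i) (c i))

theorem zp_apply {G : Type} [Group G] (g : G) (n : Zm) :
    zpowersHom G g n = g ^ (Multiplicative.toAdd n) := rfl

theorem zp_injective {G : Type} [Group G] {g : G} (h : ∀ n : ℕ, n ≠ 0 → g ^ n ≠ 1) :
    Function.Injective (zpowersHom G g) := by
  refine (injective_iff_map_eq_one _).2 (fun n hn => ?_)
  rw [zp_apply] at hn
  have h1 : Multiplicative.toAdd n = 0 := by
    by_contra hne
    refine h (Multiplicative.toAdd n).natAbs (Int.natAbs_ne_zero.2 hne) ?_
    rcases Int.natAbs_eq (Multiplicative.toAdd n) with h1 | h1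
    · rw [h1, zpow_natCast] at hn
      exact hn
    · rw [h1, zpow_neg, zpow_natCast, inv_eq_one] at hn
      exact hn
  exact h1

section central

variable {ι : Type} {M : ι → Type} [∀ i, Group (M i)] (z : ∀ i, M i)
  (hz : ∀ i m, z i * m = m * z i)

include hz in
theorem base_central (n : Zm) (w : Am M z) :
    PushoutI.base (fun i => zpowersHom (M i) (z i)) n * w =
      w * PushoutI.base (fun i => zpowersHom (M i) (z i)) n := by
  induction w using PushoutI.induction_on with
  | of i g =>
    rw [← PushoutI.of_apply_eq_base (fun i => zpowersHom (M i) (z i)) i n, ← map_mul, ← map_mul]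
    congr 1
    rw [zp_apply]
    have h1 : Commute (z i) g := hz i g
    exact (h1.zpow_left _).eq
  | base h =>
    rw [← map_mul, ← map_mul, mul_comm]
  | mul x y hx hy =>
    rw [← mul_assoc, hx, mul_assoc, hy, mul_assoc]

/-- the central subgroup -/
def Zb : Subgroup (Am M z) := (PushoutI.base (fun i => zpowersHom (M i) (z i))).range

include hz in
theorem Zb_comm (x : Am M z) (hx : x ∈ Zb z) (w : Am M z) : x * w = w * x := by
  obtain ⟨n, rfl⟩ := hx
  exact base_central z hz n w

include hz in
theorem Zb_normal : (Zb z).Normal := by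
  refine ⟨fun x hx g => ?_⟩
  rw [← Zb_comm z hz x hx g, mul_inv_cancel_right]
  exact hx

variable (N : ∀ i, Subgroup (M i)) [hNn : ∀ i, (N i).Normal]
  (hN : ∀ i, N i = Subgroup.zpowers (z i))

/-- the free product of the quotients -/
abbrev Rf : Type := PushoutI (fun i => (1 : PUnit →* M i ⧸ N i))

include hN in
theorem mk_zp (i : ι) (n : Zm) : ((zpowersHom (M i) (z i) n : M i) : M i ⧸ N i) = 1 := by
  rw [QuotientGroup.eq_one_iff, hN, zp_apply]
  exact Subgroup.zpow_mem _ (Subgroup.mem_zpowers _) _

/-- the homomorphism to the free product of the quotients -/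
def toR : Am M z →* Rf N :=
  PushoutI.lift (fun i => (PushoutI.of (φ := fun i => (1 : PUnit →* M i ⧸ N i)) i).comp
    (QuotientGroup.mk' (N i))) 1 (by
    intro i
    refine MonoidHom.ext fun n => ?_
    change PushoutI.of (φ := fun i => (1 : PUnit →* M i ⧸ N i)) i
      ((zpowersHom (M i) (z i) n : M i) : M i ⧸ N i) = 1
    rw [mk_zp z N hN, map_one])

/-- the homomorphism back -/
def fromR (hn : (Zb z).Normal) : Rf N →* Am M z ⧸ Zb z :=
  PushoutI.lift (fun i => QuotientGroup.lift (N i)
    ((QuotientGroup.mk' (Zb z)).comp (PushoutI.of (φ := fun i => zpowersHom (M i) (z i)) i)) (by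
      intro m hm
      rw [hN] at hm
      obtain ⟨k, rfl⟩ := Subgroup.mem_zpowers_iff.1 hm
      refine (QuotientGroup.eq_one_iff _).2 ⟨Multiplicative.ofAdd k, ?_⟩
      exact (PushoutI.of_apply_eq_base (fun i => zpowersHom (M i) (z i)) i
        (Multiplicative.ofAdd k)).symm)) 1 (by
    intro i
    refine MonoidHom.ext fun n => ?_
    rw [MonoidHom.comp_apply, MonoidHom.one_apply, map_one, MonoidHom.one_apply])

theorem fromR_toR (hn : (Zb z).Normal) :
    (fromR z N hN hn).comp (toR z N hN) = QuotientGroup.mk' (Zb z) := by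
  refine PushoutI.hom_ext (fun i => MonoidHom.ext fun g => ?_) (MonoidHom.ext fun n => ?_)
  · have h1 : toR z N hN (PushoutI.of i g) = PushoutI.of i (g : M i ⧸ N i) :=
      PushoutI.lift_of _ _ _ _
    change fromR z N hN hn (toR z N hN (PushoutI.of i g)) = _
    rw [h1]
    exact (PushoutI.lift_of _ _ _ _).trans rfl
  · have h1 : toR z N hN (PushoutI.base (fun i => zpowersHom (M i) (z i)) n) = 1 :=
      (PushoutI.lift_base _ _ _ _).trans rfl
    change fromR z N hN hn (toR z N hN (PushoutI.base (fun i => zpowersHom (M i) (z i)) n)) =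
      QuotientGroup.mk' (Zb z) (PushoutI.base (fun i => zpowersHom (M i) (z i)) n)
    rw [h1, map_one]
    have h2 : PushoutI.base (fun i => zpowersHom (M i) (z i)) n ∈ Zb z := ⟨n, rfl⟩
    exact ((QuotientGroup.eq_one_iff _).2 h2).symm

include hz hN in
/-- amalgamated products along central elements -/
theorem central_mem (hC : Closed C) (hE : ExtClosed C) [Nonempty ι] (hM : ∀ i, C (M i ⧸ N i)) :
    C (Am M z) := by
  have hn := Zb_normal z hz
  have hR : C (Rf N) := by
    refine push_edge hC hE (fun i => fun a b _ => Subsingleton.elim a b) hM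
      (Pool.Agent.Y812.SS.C_subsingleton hC PUnit) (fun i => (1 : M i ⧸ N i →* PUnit))
      (1 : PUnit →* PUnit) (fun i => rfl) (fun a b _ => Subsingleton.elim a b)
  have hq : ∀ x ∈ Zb z, toR z N hN x = 1 := by
    rintro _ ⟨n, rfl⟩
    exact (PushoutI.lift_base _ _ _ _).trans rfl
  have hQ : C (Am M z ⧸ Zb z) := by
    refine hC.of_injective _ _ (QuotientGroup.lift (Zb z) (toR z N hN) hq) ?_ hR
    refine Function.LeftInverse.injective (g := fromR z N hN hn) (fun x => ?_)
    induction x using QuotientGroup.induction_on with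
    | H x => exact DFunLike.congr_fun (fromR_toR z N hN hn) x
  refine central_ext hC hE (QuotientGroup.mk' (Zb z)) (QuotientGroup.mk'_surjective _) hQ ?_
  intro x hx g
  exact Zb_comm z hz x ((QuotientGroup.eq_one_iff x).1 hx) g

end central

/-- The element `c` of `A` is detected: some homomorphism `f` from `A` to a group `M` maps `c` to a
central element of infinite order, and the quotient of `M` by the subgroup generated by `f c` is in
the class. -/
def Det (C : ∀ (G : Type) [Group G], Prop) (A : Type) [Group A] (c : A) : Prop :=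
  ∃ (M : Type) (_ : Group M) (f : A →* M) (N : Subgroup M) (_ : N.Normal),
    N = Subgroup.zpowers (f c) ∧ (∀ m, f c * m = m * f c) ∧ (∀ n : ℕ, n ≠ 0 → f c ^ n ≠ 1) ∧
      C (M ⧸ N)

/-- **Amalgamated products over infinite cyclic subgroups.** -/
theorem cyc_mem (hC : Closed C) (hE : ExtClosed C) {ι : Type} [Nonempty ι] (A : ι → Type)
    [∀ i, Group (A i)] (c : ∀ i, A i) (hA : ∀ i, C (A i)) (hc : ∀ i, Det C (A i) (c i)) :
    C (Am A c) := by
  choose M gM f N hNn hN hz hi hM using hc
  have hQ := central_mem (fun i => f i (c i)) hz N hN hC hE hM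
  have hψ : ∀ i, Function.Injective (zpowersHom (M i) (f i (c i))) := fun i => zp_injective (hi i)
  have hfc : ∀ i, (f i).comp (zpowersHom (A i) (c i)) = zpowersHom (M i) (f i (c i)) := by
    intro i
    refine MonoidHom.ext fun n => ?_
    change f i (c i ^ (Multiplicative.toAdd n)) = f i (c i) ^ (Multiplicative.toAdd n)
    rw [map_zpow]
  refine push_edge hC hE (fun i => ?_) hA hQ (fun i => (PushoutI.of i).comp (f i))
    (PushoutI.base _) (fun i => ?_) (PushoutI.base_injective hψ)
  · have h1 := hψ i
    rw [← hfc i] at h1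
    exact Function.Injective.of_comp h1
  · rw [MonoidHom.comp_assoc, hfc i]
    exact PushoutI.of_comp_eq_base i

/-- detection in nilpotent groups with unique roots -/
theorem det_nilp (hC : Closed C) (hE : ExtClosed C) {A N : Type} [Group A] [Group N]
    [hNn : Group.IsNilpotent N] [hNt : IsMulTorsionFree N] (f : A →* N) (c : A) (hc : f c ≠ 1) :
    Det C A c := by
  obtain ⟨M, _, g, hM, h1, h2⟩ := central_red N hNt (f c) hc
  have hn : (Subgroup.zpowers (g (f c))).Normal := by
    refine ⟨fun x hx m => ?_⟩
    obtain ⟨k, rfl⟩ := Subgroup.mem_zpowers_iff.1 hx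
    have h3 : Commute (g (f c)) m := h1 m
    rw [← (h3.zpow_left k).eq, mul_inv_cancel_right]
    exact hx
  refine ⟨M, inferInstance, g.comp f, Subgroup.zpowers (g (f c)), hn, rfl, h1, h2, ?_⟩
  exact nilp_mem hC hE _

end Pool.Agent.Q143.CY
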