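import Pool.Agent.Q143.EI.Push

/-!
# Abelian and nilpotent groups in a class with closure properties
-/

set_option autoImplicit false
set_option linter.unusedSectionVars false
set_option linter.style.haveILetI false

namespace Pool.Agent.Q143.CY

open Pool.Agent.Y462.SS Pool.Agent.Q152.WP Pool.Agent.Q105.FJ

variable {C : ∀ (G : Type) [Group G], Prop}

/-- one more generator -/
theorem sup_mem (hC : Closed C) {G : Type} [CommGroup G] (B : Subgroup G) (hB : C B) (g : G) :
    C (B ⊔ Subgroup.zpowers g : Subgroup G) := by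
  by_cases h : ∃ n : ℕ, 0 < n ∧ g ^ n ∈ B
  · obtain ⟨n, hn, hg⟩ := h
    let S : Subgroup G := B ⊔ Subgroup.zpowers g
    let B' : Subgroup S := B.subgroupOf S
    have hgS : g ∈ S := Subgroup.mem_sup_right (Subgroup.mem_zpowers g)
    have hfin : B'.FiniteIndex := by
      have hfin' : Finite (S ⧸ B') := by
        refine Finite.of_surjective (fun k : Fin n => ((⟨g, hgS⟩ ^ (k : ℕ) : S) : S ⧸ B')) ?_
        intro q
        induction q using QuotientGroup.induction_on with
        | H s =>
          obtain ⟨s, hs⟩ := s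
          obtain ⟨b, hb, c, hc, rfl⟩ := Subgroup.mem_sup.1 hs
          obtain ⟨k, rfl⟩ := Subgroup.mem_zpowers_iff.1 hc
          have hn' : (n : ℤ) ≠ 0 := by exact_mod_cast hn.ne'
          have h0 : 0 ≤ k % n := Int.emod_nonneg _ hn'
          have h1 : k % n < n := Int.emod_lt_of_pos _ (by exact_mod_cast hn)
          refine ⟨⟨(k % n).toNat, by omega⟩, ?_⟩
          rw [QuotientGroup.eq]
          change (g ^ (k % n).toNat)⁻¹ * (b * g ^ k) ∈ B
          have h2 : g ^ (k % n).toNat = g ^ (k % n) := by
            rw [← zpow_natCast, Int.toNat_of_nonneg h0]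
          have h3 : (g ^ (k % n))⁻¹ * (b * g ^ k) = b * (g ^ n) ^ (k / n) := by
            have h4 : g ^ k = g ^ (k % n) * (g ^ n) ^ (k / n) := by
              rw [← zpow_natCast, ← zpow_mul, ← zpow_add, Int.emod_add_mul_ediv]
            rw [h4, mul_left_comm b, inv_mul_cancel_left]
          rw [h2, h3]
          exact B.mul_mem hb (B.zpow_mem hg _)
      exact Subgroup.finiteIndex_of_finite_quotient
    refine hC.finiteIndex S B' hfin (hC.of_injective _ B
      { toFun := fun x => ⟨x.1.1, x.2⟩
        map_one' := rfl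
        map_mul' := fun _ _ => rfl } ?_ hB)
    intro x y hxy
    exact Subtype.ext (Subtype.ext (congrArg (fun z : B => (z : G)) hxy))
  · have key : ∀ k : ℤ, g ^ k ∈ B → k = 0 := by
      intro k hk
      by_contra hne
      refine h ⟨k.natAbs, Int.natAbs_pos.2 hne, ?_⟩
      rcases Int.natAbs_eq k with h1 | h1
      · rw [h1, zpow_natCast] at hk
        exact hk
      · rw [h1, zpow_neg, zpow_natCast] at hk
        exact (Subgroup.inv_mem_iff B).1 hk
    let f : B × Zm →* G := MonoidHom.coprod B.subtype (zpowersHom G g)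
    have hf : ∀ x, f x = (x.1 : G) * g ^ (Multiplicative.toAdd x.2) := fun x => rfl
    have hinj : Function.Injective f := by
      refine (injective_iff_map_eq_one f).2 (fun x hx => ?_)
      rw [hf] at hx
      have h1 : g ^ (Multiplicative.toAdd x.2) ∈ B := by
        rw [← inv_eq_of_mul_eq_one_right hx]
        exact B.inv_mem x.1.2
      have h2 := key _ h1
      rw [h2, zpow_zero, mul_one] at hx
      exact Prod.ext (Subtype.ext hx) (Multiplicative.toAdd.injective h2)
    have hrange : ∀ x : (B ⊔ Subgroup.zpowers g : Subgroup G), ∃ y, f y = x := by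
      rintro ⟨s, hs⟩
      obtain ⟨b, hb, c, hc, rfl⟩ := Subgroup.mem_sup.1 hs
      obtain ⟨k, rfl⟩ := Subgroup.mem_zpowers_iff.1 hc
      exact ⟨(⟨b, hb⟩, Multiplicative.ofAdd k), rfl⟩
    choose u hu using hrange
    refine hC.of_injective _ (B × Zm)
      { toFun := u
        map_one' := hinj (by rw [hu, map_one]; rfl)
        map_mul' := fun a b => hinj (by rw [hu, map_mul, hu, hu]; rfl) } ?_ (hC.prod _ _ hB hC.int)
    intro a b hab
    apply Subtype.ext
    rw [← hu a, ← hu b]
    exact congrArg f hab

/-- abelian groups are in the class -/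
theorem comm_mem' (hC : Closed C) (G : Type) [CommGroup G] : C G := by
  classical
  refine Pool.Agent.Y430.SS.of_directed hC G (Finset G) (fun i j => ⟨i ∪ j,
      Finset.subset_union_left, Finset.subset_union_right⟩)
      (fun F => Subgroup.closure (F : Set G))
      (fun F F' h => Subgroup.closure_mono (by exact_mod_cast h))
      (fun g => ⟨{g}, Subgroup.subset_closure (by simp)⟩) (fun F => ?_)
  induction F using Finset.induction_on with
  | empty =>
    have h1 : Subgroup.closure ((∅ : Finset G) : Set G) = ⊥ := by simp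
    rw [h1]
    exact Pool.Agent.Y812.SS.C_subsingleton hC _
  | insert x F hx ih =>
    have h1 : Subgroup.closure ((insert x F : Finset G) : Set G) =
        Subgroup.closure (F : Set G) ⊔ Subgroup.zpowers x := by
      rw [Finset.coe_insert, Set.insert_eq, Subgroup.closure_union, sup_comm,
        Subgroup.zpowers_eq_closure]
    rw [h1]
    exact sup_mem hC _ ih x

/-- abelian groups are in the class -/
theorem comm_mem (hC : Closed C) (G : Type) [hG : Group G] (h : ∀ a b : G, a * b = b * a) : C G :=
  @comm_mem' C hC G { hG with mul_comm := h }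

/-- central extensions of groups in the class by abelian groups -/
theorem central_ext (hC : Closed C) (hE : ExtClosed C) {G Q : Type} [Group G] [Group Q]
    (f : G →* Q) (hf : Function.Surjective f) (hQ : C Q) (hz : ∀ z, f z = 1 → ∀ g, z * g = g * z) :
    C G := by
  refine hE G Q f hf hQ ?_ (fun q _ => ?_)
  · exact comm_mem hC _ (fun a b => Subtype.ext (hz a.1 a.2 b.1))
  · refine comm_mem hC _ (fun a b => Subtype.ext ?_)
    obtain ⟨g, hg⟩ := hf q
    have key : ∀ x : (Subgroup.zpowers q).comap f, ∃ (k : ℤ) (z : G), f z = 1 ∧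
        (x : G) = z * g ^ k := by
      rintro ⟨x, hx⟩
      obtain ⟨k, hk⟩ := Subgroup.mem_zpowers_iff.1 hx
      refine ⟨k, x * (g ^ k)⁻¹, ?_, by group⟩
      rw [map_mul, map_inv, map_zpow, hg, hk, mul_inv_cancel]
    obtain ⟨k, z, hz1, ha⟩ := key a
    obtain ⟨l, w, hw1, hb⟩ := key b
    change (a : G) * b = b * a
    rw [ha, hb]
    have e1 : g ^ k * w = w * g ^ k := (hz w hw1 _).symm
    have e2 : g ^ l * z = z * g ^ l := (hz z hz1 _).symm
    calc z * g ^ k * (w * g ^ l) = z * (g ^ k * w) * g ^ l := by group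
      _ = z * w * (g ^ k * g ^ l) := by rw [e1]; group
      _ = w * z * (g ^ l * g ^ k) := by rw [hz z hz1 w, ← zpow_add, ← zpow_add, add_comm]
      _ = w * (z * g ^ l) * g ^ k := by group
      _ = w * (g ^ l * z) * g ^ k := by rw [e2]
      _ = w * g ^ l * (z * g ^ k) := by group

/-- nilpotent groups are in the class -/
theorem nilp_mem (hC : Closed C) (hE : ExtClosed C) (G : Type) [Group G] [Group.IsNilpotent G] :
    C G := by
  refine Group.nilpotent_center_quotient_ind (P := fun G _ _ => C G) G ?_ ?_
  · intro G _ _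
    exact Pool.Agent.Y812.SS.C_subsingleton hC _
  · intro G _ _ h
    refine central_ext hC hE (QuotientGroup.mk' (Subgroup.center G))
      (QuotientGroup.mk'_surjective _) h (fun z hz g => ?_)
    have h1 : z ∈ Subgroup.center G := (QuotientGroup.eq_one_iff z).1 hz
    exact (Subgroup.mem_center_iff.1 h1 g).symm

/-! ## nilpotent groups with unique roots -/

theorem comm_of_pow {G : Type} [Group G] [IsMulTorsionFree G] {x y : G} {m : ℕ} (hm : m ≠ 0)
    (h : x ^ m * y = y * x ^ m) : x * y = y * x := by
  have h1 : (y⁻¹ * x * y) ^ m = x ^ m := by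
    have h2 : (y⁻¹ * x * y) ^ m = y⁻¹ * x ^ m * y := by
      have := conj_pow (i := m) (a := y⁻¹) (b := x)
      rw [inv_inv] at this
      exact this
    rw [h2, mul_assoc, h, inv_mul_cancel_left]
  have h3 : y⁻¹ * x * y = x := pow_left_injective hm h1
  rw [← mul_right_inj y⁻¹, inv_mul_cancel_left, ← mul_assoc]
  exact h3

/-- the quotient by the center has unique roots -/
theorem unique_quot (G : Type) [Group G] [IsMulTorsionFree G] :
    IsMulTorsionFree (G ⧸ Subgroup.center G) := by
  refine ⟨fun m hm a b hab => ?_⟩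
  induction a using QuotientGroup.induction_on with
  | H x =>
    induction b using QuotientGroup.induction_on with
    | H y =>
      have h1 : (((x ^ m : G)) : G ⧸ Subgroup.center G) = ((y ^ m : G) : G ⧸ Subgroup.center G) :=
        hab
      rw [QuotientGroup.eq] at h1 ⊢
      have hz : ∀ g, ((x ^ m)⁻¹ * y ^ m) * g = g * ((x ^ m)⁻¹ * y ^ m) := fun g =>
        (Subgroup.mem_center_iff.1 h1 g).symm
      -- `x ^ m` and `y ^ m` commute
      have h2 : y ^ m * x ^ m = x ^ m * y ^ m := by
        have h3 := hz (x ^ m)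
        have h4 : x ^ m * ((x ^ m)⁻¹ * y ^ m * x ^ m) = x ^ m * (x ^ m * ((x ^ m)⁻¹ * y ^ m)) := by
          rw [h3]
        rw [mul_assoc (x ^ m)⁻¹, mul_inv_cancel_left, mul_inv_cancel_left] at h4
        exact h4
      have h5 : y * x ^ m = x ^ m * y := comm_of_pow hm h2
      have h6 : x * y = y * x := comm_of_pow hm h5.symm
      have h7 : (x⁻¹ * y) ^ m = (x ^ m)⁻¹ * y ^ m := by
        have h8 : Commute x⁻¹ y := (show Commute x y from h6).inv_left
        rw [h8.mul_pow, inv_pow]
      rw [Subgroup.mem_center_iff]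
      intro g
      exact (comm_of_pow hm (by rw [h7]; exact hz g)).symm

/-- a nontrivial element of a nilpotent group with unique roots is nontrivial and central in a
nilpotent quotient with unique roots -/
theorem central_red (G : Type) [Group G] [Group.IsNilpotent G] : IsMulTorsionFree G →
    ∀ c : G, c ≠ 1 → ∃ (M : Type) (_ : Group M) (g : G →* M), Group.IsNilpotent M ∧
      (∀ m, g c * m = m * g c) ∧ ∀ n : ℕ, n ≠ 0 → (g c) ^ n ≠ 1 := by
  refine Group.nilpotent_center_quotient_ind (P := fun G _ _ => IsMulTorsionFree G →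
    ∀ c : G, c ≠ 1 → ∃ (M : Type) (_ : Group M) (g : G →* M), Group.IsNilpotent M ∧
      (∀ m, g c * m = m * g c) ∧ ∀ n : ℕ, n ≠ 0 → (g c) ^ n ≠ 1) G ?_ ?_
  · intro G _ _ _ c hc
    exact absurd (Subsingleton.elim c 1) hc
  · intro G _ hN ih hG c hc
    by_cases h : c ∈ Subgroup.center G
    · refine ⟨G, inferInstance, MonoidHom.id G, hN, fun m => (Subgroup.mem_center_iff.1 h m).symm,
        fun n hn h1 => hc ?_⟩
      exact pow_left_injective hn (h1.trans (one_pow n).symm)
    · haveI := hG
      obtain ⟨M, _, g, hM, hg1, hg2⟩ := ih (unique_quot G) (c : G ⧸ Subgroup.center G)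
        (fun h1 => h ((QuotientGroup.eq_one_iff c).1 h1))
      exact ⟨M, inferInstance, g.comp (QuotientGroup.mk' _), hM, hg1, hg2⟩

end Pool.Agent.Q143.CY
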